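import Pool.Agent.Helper17.FP.Stmts

set_option autoImplicit false

/-! MP_c38931_co, project FP, module VAR2. -/

open Finset

namespace Pool.Agent.Helper17.FP

open Pool.Agent.Helper17.SO Pool.Agent.Helper17.SV

private lemma var2_jabs (a : ℤ) (p : ℕ) : |(jacobiSym a p : ℝ)| ≤ 1 := by
  rcases jacobiSym.trichotomy a p with h | h | h <;> rw [h] <;> simp

private lemma var2_card (z1 z : ℕ) : ((PP z1 z).card : ℝ) ≤ z := by
  have h : (PP z1 z).card ≤ z := by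
    unfold PP
    refine (Finset.card_filter_le _ _).trans ?_
    rw [Nat.card_Ioc]
    exact Nat.sub_le _ _
  exact_mod_cast h

private lemma var2_sq (z1 z : ℕ) (h1 : 1 ≤ z1) (h2 : z1 ≤ z) :
    ∑ p ∈ PP z1 z, 1 / (p : ℝ) ^ 2 ≤ 1 / (z1 : ℝ) := by
  have h : ∑ p ∈ PP z1 z, 1 / (p : ℝ) ^ 2 ≤ ∑ p ∈ Ioc z1 z, 1 / (p : ℝ) ^ 2 := by
    refine Finset.sum_le_sum_of_subset_of_nonneg (Finset.filter_subset _ _) ?_
    intro i _ _
    positivity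
  have h3 : ∑ i ∈ Ioc z1 z, (((i : ℝ)) ^ 2)⁻¹ ≤ ((z1 : ℝ))⁻¹ - ((z : ℝ))⁻¹ :=
    sum_Ioc_inv_sq_le_sub (by omega) h2
  have h4 : (0 : ℝ) ≤ ((z : ℝ))⁻¹ := by positivity
  simp only [one_div] at h ⊢
  linarith

private lemma var2_half (lam : ℕ) (C2 : ℝ) (hC2 : 0 < C2) (p p' R : ℕ)
    (h : ∀ R : ℕ, |∑ r ∈ Ioc 0 R, (wt lam r : ℝ) * (jacobiSym (r : ℤ) (p * p') : ℝ)| ≤
      C2 * Real.sqrt R * (p * p')) :
    |∑ r ∈ Ioc R (2 * R), (wt lam r : ℝ) * (jacobiSym (r : ℤ) (p * p') : ℝ)| ≤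
      3 * C2 * Real.sqrt R * (p * p') := by
  have e : ∑ r ∈ Ioc R (2 * R), (wt lam r : ℝ) * (jacobiSym (r : ℤ) (p * p') : ℝ) =
      ∑ r ∈ Ioc 0 (2 * R), (wt lam r : ℝ) * (jacobiSym (r : ℤ) (p * p') : ℝ) -
      ∑ r ∈ Ioc 0 R, (wt lam r : ℝ) * (jacobiSym (r : ℤ) (p * p') : ℝ) := by
    have hu : Ioc 0 (2 * R) = Ioc 0 R ∪ Ioc R (2 * R) := by
      ext x
      simp only [Finset.mem_union, Finset.mem_Ioc]
      omega
    have hd : Disjoint (Ioc 0 R) (Ioc R (2 * R)) := by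
      rw [Finset.disjoint_left]
      intro x hx hx'
      simp only [Finset.mem_Ioc] at hx hx'
      omega
    rw [hu, Finset.sum_union hd]
    ring
  rw [e]
  have h1 := h (2 * R)
  have h2 := h R
  have hs : Real.sqrt ((2 * R : ℕ) : ℝ) ≤ 2 * Real.sqrt R := by
    rw [Real.sqrt_le_left (by positivity)]
    push_cast
    rw [mul_pow, Real.sq_sqrt (by positivity)]
    have : (0 : ℝ) ≤ R := by positivity
    linarith
  have hpp : (0 : ℝ) ≤ (p : ℝ) * p' := by positivity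
  have h3 : C2 * Real.sqrt ((2 * R : ℕ) : ℝ) * (p * p') ≤ C2 * (2 * Real.sqrt R) * (p * p') := by
    gcongr
  calc |∑ r ∈ Ioc 0 (2 * R), (wt lam r : ℝ) * (jacobiSym (r : ℤ) (p * p') : ℝ) -
      ∑ r ∈ Ioc 0 R, (wt lam r : ℝ) * (jacobiSym (r : ℤ) (p * p') : ℝ)|
      ≤ |∑ r ∈ Ioc 0 (2 * R), (wt lam r : ℝ) * (jacobiSym (r : ℤ) (p * p') : ℝ)| +
      |∑ r ∈ Ioc 0 R, (wt lam r : ℝ) * (jacobiSym (r : ℤ) (p * p') : ℝ)| := abs_sub _ _
    _ ≤ C2 * (2 * Real.sqrt R) * (p * p') + C2 * Real.sqrt R * (p * p') := by linarith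
    _ = 3 * C2 * Real.sqrt R * (p * p') := by ring

private lemma var2_off (lam : ℕ) (C2 : ℝ) (hC2 : 0 < C2) (p p' R : ℕ) (hp : p.Prime)
    (hp' : p'.Prime) (τ : ℤ)
    (h : ∀ R : ℕ, |∑ r ∈ Ioc 0 R, (wt lam r : ℝ) * (jacobiSym (r : ℤ) (p * p') : ℝ)| ≤
      C2 * Real.sqrt R * (p * p')) :
    ∑ r ∈ Ioc R (2 * R), (wt lam r : ℝ) * ((jacobiSym (τ * lam * r) p : ℝ) / p *
      ((jacobiSym (τ * lam * r) p' : ℝ) / p')) ≤ 3 * C2 * Real.sqrt R := by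
  have hp0 : (0 : ℝ) < p := by exact_mod_cast hp.pos
  have hp0' : (0 : ℝ) < p' := by exact_mod_cast hp'.pos
  have : NeZero p := ⟨hp.ne_zero⟩
  have : NeZero p' := ⟨hp'.ne_zero⟩
  have e : ∑ r ∈ Ioc R (2 * R), (wt lam r : ℝ) * ((jacobiSym (τ * lam * r) p : ℝ) / p *
      ((jacobiSym (τ * lam * r) p' : ℝ) / p')) =
      ((jacobiSym (τ * lam) p : ℝ) * (jacobiSym (τ * lam) p' : ℝ)) / (p * p') *
        ∑ r ∈ Ioc R (2 * R), (wt lam r : ℝ) * (jacobiSym (r : ℤ) (p * p') : ℝ) := by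
    rw [Finset.mul_sum]
    refine Finset.sum_congr rfl ?_
    intro r _
    rw [jacobiSym.mul_left (τ * lam) r p, jacobiSym.mul_left (τ * lam) r p',
      jacobiSym.mul_right]
    push_cast
    field_simp
  rw [e]
  have h1 := var2_half lam C2 hC2 p p' R h
  have h2 : |((jacobiSym (τ * lam) p : ℝ) * (jacobiSym (τ * lam) p' : ℝ)) / (p * p')| ≤
      1 / (p * p') := by
    rw [abs_div, abs_mul, abs_of_pos (mul_pos hp0 hp0')]
    have ha := var2_jabs (τ * lam) p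
    have hb := var2_jabs (τ * lam) p'
    have : |(jacobiSym (τ * lam) p : ℝ)| * |(jacobiSym (τ * lam) p' : ℝ)| ≤ 1 :=
      mul_le_one₀ ha (abs_nonneg _) hb
    gcongr
  refine (le_abs_self _).trans ?_
  rw [abs_mul]
  calc |((jacobiSym (τ * lam) p : ℝ) * (jacobiSym (τ * lam) p' : ℝ)) / (p * p')| *
      |∑ r ∈ Ioc R (2 * R), (wt lam r : ℝ) * (jacobiSym (r : ℤ) (p * p') : ℝ)|
      ≤ 1 / (p * p') * (3 * C2 * Real.sqrt R * (p * p')) := by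
        gcongr
    _ = 3 * C2 * Real.sqrt R := by
        field_simp

private lemma var2_diag (lam : ℕ) (C1 : ℝ) (p R : ℕ) (hp : p.Prime) (τ : ℤ)
    (hw : ∀ r : ℕ, 0 ≤ (wt lam r : ℝ))
    (h : ∀ R : ℕ, ∑ r ∈ Ioc 0 R, (wt lam r : ℝ) ≤ C1 * R) :
    ∑ r ∈ Ioc R (2 * R), (wt lam r : ℝ) * ((jacobiSym (τ * lam * r) p : ℝ) / p *
      ((jacobiSym (τ * lam * r) p : ℝ) / p)) ≤ 2 * C1 * R * (1 / (p : ℝ) ^ 2) := by
  have hp0 : (0 : ℝ) < p := by exact_mod_cast hp.pos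
  have h1 : ∑ r ∈ Ioc R (2 * R), (wt lam r : ℝ) * ((jacobiSym (τ * lam * r) p : ℝ) / p *
      ((jacobiSym (τ * lam * r) p : ℝ) / p)) ≤
      ∑ r ∈ Ioc R (2 * R), (wt lam r : ℝ) * (1 / (p : ℝ) ^ 2) := by
    refine Finset.sum_le_sum ?_
    intro r _
    refine mul_le_mul_of_nonneg_left ?_ (hw r)
    have ha := var2_jabs (τ * lam * r) p
    have hb : (jacobiSym (τ * lam * r) p : ℝ) ^ 2 ≤ 1 := by
      rw [← sq_abs]
      exact pow_le_one₀ (abs_nonneg _) ha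
    calc (jacobiSym (τ * lam * r) p : ℝ) / p * ((jacobiSym (τ * lam * r) p : ℝ) / p)
        = (jacobiSym (τ * lam * r) p : ℝ) ^ 2 / (p : ℝ) ^ 2 := by
          field_simp
      _ ≤ 1 / (p : ℝ) ^ 2 := by
          gcongr
  refine h1.trans ?_
  rw [← Finset.sum_mul]
  have h2 : ∑ r ∈ Ioc R (2 * R), (wt lam r : ℝ) ≤ ∑ r ∈ Ioc 0 (2 * R), (wt lam r : ℝ) := by
    refine Finset.sum_le_sum_of_subset_of_nonneg ?_ ?_
    · intro x hx
      simp only [Finset.mem_Ioc] at hx ⊢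
      omega
    · intro i _ _
      exact hw i
  have h3 := h (2 * R)
  push_cast at h3
  have h4 : ∑ r ∈ Ioc R (2 * R), (wt lam r : ℝ) ≤ 2 * C1 * R := by linarith
  exact mul_le_mul_of_nonneg_right h4 (by positivity)

theorem st_VAR2 (h1 : ST_WNN) (h2 : ST_WSUM) (h3 : ST_WCH) : ST_VAR2 := by
  intro lam hlam
  obtain ⟨C1, hC1, hS⟩ := h2 lam hlam
  obtain ⟨C2, hC2, hT⟩ := h3 lam hlam
  refine ⟨2 * C1 + 3 * C2, by positivity, ?_⟩
  intro R z1 z τ hz1 hz _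
  have hw : ∀ r : ℕ, 0 ≤ (wt lam r : ℝ) := fun r => by exact_mod_cast h1 lam r
  have e : ∑ r ∈ Ioc R (2 * R), (wt lam r : ℝ) * (FF lam τ z1 z r) ^ 2 =
      ∑ p ∈ PP z1 z, ∑ p' ∈ PP z1 z, ∑ r ∈ Ioc R (2 * R), (wt lam r : ℝ) *
        ((jacobiSym (τ * lam * r) p : ℝ) / p * ((jacobiSym (τ * lam * r) p' : ℝ) / p')) := by
    have e1 : ∀ r ∈ Ioc R (2 * R), (wt lam r : ℝ) * (FF lam τ z1 z r) ^ 2 =
        ∑ p ∈ PP z1 z, ∑ p' ∈ PP z1 z, (wt lam r : ℝ) *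
        ((jacobiSym (τ * lam * r) p : ℝ) / p * ((jacobiSym (τ * lam * r) p' : ℝ) / p')) := by
      intro r _
      unfold FF
      rw [pow_two, Finset.sum_mul_sum, Finset.mul_sum]
      refine Finset.sum_congr rfl ?_
      intro p _
      rw [Finset.mul_sum]
    rw [Finset.sum_congr rfl e1, Finset.sum_comm]
    refine Finset.sum_congr rfl ?_
    intro p _
    rw [Finset.sum_comm]
  rw [e]
  have hpr : ∀ p ∈ PP z1 z, p.Prime ∧ 4 * lam < p := by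
    intro p hp
    unfold PP at hp
    rw [Finset.mem_filter, Finset.mem_Ioc] at hp
    exact ⟨hp.2, by omega⟩
  have hb : ∀ p ∈ PP z1 z, ∑ p' ∈ PP z1 z, ∑ r ∈ Ioc R (2 * R), (wt lam r : ℝ) *
        ((jacobiSym (τ * lam * r) p : ℝ) / p * ((jacobiSym (τ * lam * r) p' : ℝ) / p')) ≤
        2 * C1 * R * (1 / (p : ℝ) ^ 2) + 3 * C2 * Real.sqrt R * z := by
    intro p hp
    rw [← Finset.add_sum_erase _ _ hp]
    have ha := var2_diag lam C1 p R (hpr p hp).1 τ hw hS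
    have hc : ∑ p' ∈ (PP z1 z).erase p, ∑ r ∈ Ioc R (2 * R), (wt lam r : ℝ) *
        ((jacobiSym (τ * lam * r) p : ℝ) / p * ((jacobiSym (τ * lam * r) p' : ℝ) / p')) ≤
        ∑ _p' ∈ (PP z1 z).erase p, 3 * C2 * Real.sqrt R := by
      refine Finset.sum_le_sum ?_
      intro p' hp'
      rw [Finset.mem_erase] at hp'
      exact var2_off lam C2 hC2 p p' R (hpr p hp).1 (hpr p' hp'.2).1 τ
        (fun R => hT p p' R (hpr p hp).1 (hpr p' hp'.2).1 (Ne.symm hp'.1) (hpr p hp).2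
          (hpr p' hp'.2).2)
    rw [Finset.sum_const, nsmul_eq_mul] at hc
    have hd : (((PP z1 z).erase p).card : ℝ) ≤ z := by
      have hd1 : (((PP z1 z).erase p).card : ℝ) ≤ ((PP z1 z).card : ℝ) := by
        exact_mod_cast Finset.card_erase_le
      exact hd1.trans (var2_card z1 z)
    have he : (((PP z1 z).erase p).card : ℝ) * (3 * C2 * Real.sqrt R) ≤
        z * (3 * C2 * Real.sqrt R) := by
      gcongr
    linarith
  refine (Finset.sum_le_sum hb).trans ?_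
  rw [Finset.sum_add_distrib, ← Finset.mul_sum, Finset.sum_const, nsmul_eq_mul]
  have h5 := var2_sq z1 z (by omega) hz
  have h6 := var2_card z1 z
  have h7 : 2 * C1 * R * ∑ p ∈ PP z1 z, 1 / (p : ℝ) ^ 2 ≤ 2 * C1 * R * (1 / (z1 : ℝ)) := by
    gcongr
  have h8 : ((PP z1 z).card : ℝ) * (3 * C2 * Real.sqrt R * z) ≤
      z * (3 * C2 * Real.sqrt R * z) := by
    gcongr
  have h9 : (0 : ℝ) ≤ C2 * ((R : ℝ) / z1) := by positivity
  have h10 : (0 : ℝ) ≤ C1 * (Real.sqrt R * (z : ℝ) ^ 2) := by positivity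
  calc 2 * C1 * R * ∑ p ∈ PP z1 z, 1 / (p : ℝ) ^ 2 +
      ((PP z1 z).card : ℝ) * (3 * C2 * Real.sqrt R * z)
      ≤ 2 * C1 * R * (1 / (z1 : ℝ)) + z * (3 * C2 * Real.sqrt R * z) := by linarith
    _ = 2 * (C1 * ((R : ℝ) / z1)) + 3 * (C2 * (Real.sqrt R * (z : ℝ) ^ 2)) := by ring
    _ ≤ (2 * C1 + 3 * C2) * ((R : ℝ) / z1 + Real.sqrt R * (z : ℝ) ^ 2) := by
      have : (2 * C1 + 3 * C2) * ((R : ℝ) / z1 + Real.sqrt R * (z : ℝ) ^ 2) =
        2 * (C1 * ((R : ℝ) / z1)) + 3 * (C2 * (Real.sqrt R * (z : ℝ) ^ 2)) +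
        3 * (C2 * ((R : ℝ) / z1)) + 2 * (C1 * (Real.sqrt R * (z : ℝ) ^ 2)) := by ring
      rw [this]
      linarith

end Pool.Agent.Helper17.FP
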